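import Pool.Agent.Lib.MP_10bdcf_co.TL
import Pool.Agent.Lib.MP_10bdcf_co.ZZ

/-!
Every 2-uniform matroid is quaternionic unimodular.
-/

namespace Pool.Agent.Results.MP_10bdcf_co.Full

open Pool.Agent.Lib.MP_10bdcf_co

theorem result {r : ℕ} {E : Type} [Finite E] (M : Matroid E) (A : Matrix (Fin r) E K2)
    (hA : IsWeakU2 A) (hM : RepresentsK A M) : IsQU M :=
  letI := Fintype.ofFinite E
  G.isQU_of_tl (fun _ _ _ _ _ _ _ => G.tlemma) hA hM

end Pool.Agent.Results.MP_10bdcf_co.Full
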